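import Pool.Agent.W406.PX.Stmts

/-! PX-MSS: sizes of the response, of the transferred masses, and total mass of a cell. -/

set_option autoImplicit false

open Finset MeasureTheory

namespace Pool.Agent.W918.PX

open Pool.Agent.H96R3.BC (vv cf NN TaskLagA)
open Pool.Agent.W406.PX

theorem task : Pool.Agent.W406.PX.TaskMss := by
  intro Q j' B w ε ω S D c f hB i
  obtain ⟨hD, hfc, hc, hf⟩ := hB
  set κ := kp Q j' with hκd
  have hκ : 0 ≤ κ := by rw [hκd]; unfold kp; positivity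
  have hj1 : 16 ≤ j' := S.hj
  have hj0 : (0 : ℝ) < (j' : ℝ) := by
    have : (16 : ℝ) ≤ j' := by exact_mod_cast hj1
    linarith
  have hjp : (0 : ℝ) < (j' : ℝ) ^ (2 * Q) := by positivity
  have vmono : ∀ a b : ℕ, a ≤ b → vv Q j' a ≤ vv Q j' b := by
    intro a b hab
    unfold vv
    apply Real.rpow_le_rpow (by positivity) ?_ (by positivity)
    have : (a : ℝ) ≤ b := by exact_mod_cast hab
    gcongr
  have vge : ∀ n : ℕ, B 0 ≤ n → 1 ≤ vv Q j' n := by
    intro n hn
    unfold vv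
    apply Real.one_le_rpow ?_ (by positivity)
    rw [le_div_iff₀ hjp, one_mul]
    exact_mod_cast S.low.trans hn
  have bmono : ∀ a b : ℕ, a ≤ b → be Q j' B a ≤ be Q j' B b := fun a b h =>
    vmono _ _ (S.mono.monotone h)
  have b1 : ∀ a, 1 ≤ be Q j' B a := fun a => vge _ (S.mono.monotone (Nat.zero_le a))
  have hfb : ∀ v b : ℝ, 1 ≤ v → v ≤ b → |f v| ≤ D * (κ * b ^ (3 * Q + 2)) := by
    intro v b hv hvb
    refine (hf v (by linarith)).trans ?_
    refine mul_le_mul_of_nonneg_left (mul_le_mul_of_nonneg_left ?_ hκ) hD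
    unfold NN
    split_ifs with h
    · have h1 : v = 1 := le_antisymm h hv
      rw [h1, one_pow]
      exact one_le_pow₀ (hv.trans hvb)
    · exact pow_le_pow_left₀ (by linarith) hvb _
  -- transferred masses
  have hZ : ∀ a, |Zf Q j' B f a| ≤ D * (κ * be Q j' B a ^ (3 * Q + 3)) := by
    intro a
    have hb0 := b1 0
    have hba := b1 a
    have h0a := bmono 0 a (Nat.zero_le a)
    unfold Zf
    rw [abs_mul, abs_of_nonneg (show (0 : ℝ) ≤ be Q j' B a ^ 2 by positivity)]
    have h1 : ‖∫ u in (be Q j' B 0)..(be Q j' B a), f u / u ^ 2‖ ≤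
        D * (κ * be Q j' B a ^ (3 * Q)) * |be Q j' B a - be Q j' B 0| := by
      refine intervalIntegral.norm_integral_le_of_norm_le_const fun x hx => ?_
      rw [Set.uIoc_of_le h0a] at hx
      have hx1 : 1 ≤ x := by linarith [hx.1]
      have hx0 : 0 < x := by linarith
      have h2 := hfb x x hx1 le_rfl
      rw [norm_div, Real.norm_eq_abs, Real.norm_of_nonneg (by positivity),
        div_le_iff₀ (by positivity)]
      refine h2.trans ?_
      have h3 : x ^ (3 * Q + 2) = x ^ (3 * Q) * x ^ 2 := pow_add _ _ _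
      have h4 : x ^ (3 * Q) ≤ be Q j' B a ^ (3 * Q) := pow_le_pow_left₀ hx0.le hx.2 _
      rw [h3]
      calc D * (κ * (x ^ (3 * Q) * x ^ 2)) ≤ D * (κ * (be Q j' B a ^ (3 * Q) * x ^ 2)) := by
            gcongr
        _ = _ := by ring
    rw [abs_of_nonneg (sub_nonneg.2 h0a), Real.norm_eq_abs] at h1
    calc _ ≤ (D * (κ * be Q j' B a ^ (3 * Q)) * (be Q j' B a - be Q j' B 0)) *
          be Q j' B a ^ 2 := mul_le_mul_of_nonneg_right h1 (by positivity)
      _ ≤ (D * (κ * be Q j' B a ^ (3 * Q)) * be Q j' B a) * be Q j' B a ^ 2 := by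
          gcongr
          linarith
      _ = _ := by ring
  set bi := be Q j' B i with hbi
  set b' := be Q j' B (i + 1) with hb'
  have hbi1 : 1 ≤ bi := b1 i
  have hb'1 : 1 ≤ b' := b1 (i + 1)
  have hbb : bi ≤ b' := bmono i (i + 1) (Nat.le_succ i)
  have hrat : b' ≤ 2 * bi := S.ratio i
  set H := Hs (j' ^ (2 * Q)) (B i) (B (i + 1)) with hH
  have hZi := hZ i
  have hZi' := hZ (i + 1)
  rw [← hbi] at hZi
  rw [← hb'] at hZi'
  have hZ1 : |Zf Q j' B f i| ≤ D * (κ * b' ^ (3 * Q + 3)) := hZi.trans (by gcongr)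
  have hI : ∫ u in bi..b', |f u| ≤ D * (κ * b' ^ (3 * Q + 3)) := by
    have h1 : ‖∫ u in bi..b', |f u|‖ ≤ D * (κ * b' ^ (3 * Q + 2)) * |b' - bi| := by
      refine intervalIntegral.norm_integral_le_of_norm_le_const fun x hx => ?_
      rw [Set.uIoc_of_le hbb] at hx
      rw [Real.norm_eq_abs, abs_abs]
      exact hfb x b' (by linarith [hx.1]) hx.2
    rw [abs_of_nonneg (sub_nonneg.2 hbb)] at h1
    refine (le_abs_self _).trans (h1.trans ?_)
    calc D * (κ * b' ^ (3 * Q + 2)) * (b' - bi) ≤ D * (κ * b' ^ (3 * Q + 2)) * b' := by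
          gcongr
          linarith
      _ = _ := by ring
  have hcell : ∀ n ∈ Ioc (B i) (B (i + 1)), bi ≤ vv Q j' n ∧ vv Q j' n ≤ b' := by
    intro n hn
    rw [Finset.mem_Ioc] at hn
    exact ⟨vmono _ _ hn.1.le, vmono _ _ hn.2⟩
  -- the response
  have hX : ∀ p ∈ Ioc (B i) (B (i + 1)), p.Prime → |XL Q j' B w c f i p| ≤
      D / 2 * (ε * gw p) := by
    intro p hp hpp
    have hw : ∀ u, bi ≤ u → u ≤ b' → |w p u| ≤ ω i := S.wbd i p hp
    have hω : 0 ≤ ω i := (abs_nonneg _).trans (hw bi le_rfl hbb)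
    obtain ⟨hvp, -⟩ := hcell p hp
    have hvp0 : 0 < vv Q j' p := by linarith
    have e1 : |∫ u in bi..b', f u * w p u| ≤ ω i * (D * (κ * b' ^ (3 * Q + 3))) := by
      have h1 : ‖∫ u in bi..b', f u * w p u‖ ≤ D * (κ * b' ^ (3 * Q + 2)) * ω i * |b' - bi| := by
        refine intervalIntegral.norm_integral_le_of_norm_le_const fun x hx => ?_
        rw [Set.uIoc_of_le hbb] at hx
        rw [norm_mul, Real.norm_eq_abs, Real.norm_eq_abs]
        exact mul_le_mul (hfb x b' (by linarith [hx.1]) hx.2) (hw x hx.1.le hx.2) (abs_nonneg _)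
          (by positivity)
      rw [abs_of_nonneg (sub_nonneg.2 hbb), Real.norm_eq_abs] at h1
      refine h1.trans ?_
      calc D * (κ * b' ^ (3 * Q + 2)) * ω i * (b' - bi) ≤
            D * (κ * b' ^ (3 * Q + 2)) * ω i * b' := by
            gcongr
            linarith
        _ = _ := by ring
    have e2 : |Zf Q j' B f i * w p bi| ≤ ω i * (D * (κ * b' ^ (3 * Q + 3))) := by
      rw [abs_mul, mul_comm]
      exact mul_le_mul (hw bi le_rfl hbb) hZ1 (abs_nonneg _) hω
    have e3 : |Zf Q j' B f (i + 1) * w p b'| ≤ ω i * (D * (κ * b' ^ (3 * Q + 3))) := by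
      rw [abs_mul, mul_comm]
      exact mul_le_mul (hw b' hbb le_rfl) hZi' (abs_nonneg _) hω
    have e4 : |∑ n ∈ Ioc (B i) (B (i + 1)), c n * (vv Q j' n) ^ 2 * w p (vv Q j' n)| ≤
        ω i * (b' ^ 2 * (D * H)) := by
      refine (Finset.abs_sum_le_sum_abs _ _).trans ?_
      have h1 : ∀ n ∈ Ioc (B i) (B (i + 1)), |c n * (vv Q j' n) ^ 2 * w p (vv Q j' n)| ≤
          ω i * b' ^ 2 * |c n| := by
        intro n hn
        obtain ⟨h2, h3⟩ := hcell n hn
        have h4 : (vv Q j' n) ^ 2 ≤ b' ^ 2 := pow_le_pow_left₀ (by linarith) h3 2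
        rw [abs_mul, abs_mul, abs_of_nonneg (sq_nonneg (vv Q j' n))]
        calc |c n| * vv Q j' n ^ 2 * |w p (vv Q j' n)| ≤ |c n| * b' ^ 2 * ω i :=
              mul_le_mul (mul_le_mul_of_nonneg_left h4 (abs_nonneg _)) (hw _ h2 h3)
                (abs_nonneg _) (by positivity)
          _ = _ := by ring
      refine (Finset.sum_le_sum h1).trans ?_
      rw [← Finset.mul_sum]
      calc ω i * b' ^ 2 * ∑ n ∈ Ioc (B i) (B (i + 1)), |c n| ≤ ω i * b' ^ 2 * (D * H) :=
            mul_le_mul_of_nonneg_left (hc i) (by positivity)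
        _ = _ := by ring
    unfold XL
    rw [abs_div, abs_of_nonneg (sq_nonneg (vv Q j' p)), div_le_iff₀ (by positivity)]
    have h5 : |(∫ u in bi..b', f u * w p u) + Zf Q j' B f i * w p bi -
        Zf Q j' B f (i + 1) * w p b' -
        ∑ n ∈ Ioc (B i) (B (i + 1)), c n * (vv Q j' n) ^ 2 * w p (vv Q j' n)| ≤
        ω i * (D * (κ * b' ^ (3 * Q + 3))) + ω i * (D * (κ * b' ^ (3 * Q + 3))) +
          ω i * (D * (κ * b' ^ (3 * Q + 3))) + ω i * (b' ^ 2 * (D * H)) := by
      have t1 := abs_le.1 e1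
      have t2 := abs_le.1 e2
      have t3 := abs_le.1 e3
      have t4 := abs_le.1 e4
      exact abs_le.2 ⟨by linarith [t1.1, t2.1, t3.2, t4.2], by linarith [t1.2, t2.2, t3.1, t4.1]⟩
    refine h5.trans ?_
    have h6 := S.small i p hp hpp
    rw [← hκd, ← hb', ← hH] at h6
    have h7 : b' ^ 2 ≤ 4 * vv Q j' p ^ 2 := by nlinarith
    have h8 : 0 ≤ ε * gw p := by
      refine mul_nonneg S.hε.1.le ?_
      unfold gw
      split_ifs <;> positivity
    have h9 : ω i * (D * (κ * b' ^ (3 * Q + 3))) + ω i * (D * (κ * b' ^ (3 * Q + 3))) +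
          ω i * (D * (κ * b' ^ (3 * Q + 3))) + ω i * (b' ^ 2 * (D * H)) =
        (D * b' ^ 2 / 8) * (8 * ω i * (3 * κ * b' ^ (3 * Q + 1) + H)) := by
      ring
    rw [h9]
    calc (D * b' ^ 2 / 8) * (8 * ω i * (3 * κ * b' ^ (3 * Q + 1) + H))
        ≤ (D * b' ^ 2 / 8) * (ε * gw p) := mul_le_mul_of_nonneg_left h6 (by positivity)
      _ = (D / 8) * (ε * gw p) * b' ^ 2 := by ring
      _ ≤ (D / 8) * (ε * gw p) * (4 * vv Q j' p ^ 2) := mul_le_mul_of_nonneg_left h7 (by positivity)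
      _ = _ := by ring
  refine ⟨hX, hZi, ?_⟩
  -- total mass
  have hgw : ∀ n ∈ Ioc (B i) (B (i + 1)), gw n ≤ 1 := by
    intro n hn
    unfold gw
    split_ifs with h
    · rw [Finset.mem_Ioc] at hn
      have h16 : 16 ≤ n := by
        have h1 : j' ^ 1 ≤ j' ^ (2 * Q) := Nat.pow_le_pow_right (by omega) (by have := S.hQ; omega)
        rw [pow_one] at h1
        have h2 := S.low
        have h3 := S.mono.monotone (Nat.zero_le i)
        omega
      have h3 : Real.exp 1 ≤ n := by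
        have := Real.exp_one_lt_d9
        have h4 : (16 : ℝ) ≤ n := by exact_mod_cast h16
        linarith
      have h4 : 1 ≤ Real.log n := by
        rw [Real.le_log_iff_exp_le (by linarith [Real.exp_pos 1])]
        exact h3
      rw [div_le_one (by positivity)]
      nlinarith
    · norm_num
  have hco : ∑ n ∈ Ioc (B i) (B (i + 1)), |co Q j' B w c f i n| * (vv Q j' n) ^ 2 ≤
      D * (2 * (Ioc (B i) (B (i + 1))).card * b' ^ 2) := by
    have h1 : ∀ n ∈ Ioc (B i) (B (i + 1)), |co Q j' B w c f i n| * (vv Q j' n) ^ 2 ≤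
        b' ^ 2 * |c n| + b' ^ 2 * (D / 4) := by
      intro n hn
      obtain ⟨h2, h3⟩ := hcell n hn
      have h4 : (vv Q j' n) ^ 2 ≤ b' ^ 2 := pow_le_pow_left₀ (by linarith) h3 2
      have h5 : |co Q j' B w c f i n| ≤ |c n| + D / 4 := by
        unfold co
        refine (abs_add_le _ _).trans (add_le_add le_rfl ?_)
        split_ifs with hpn
        · refine (hX n hn hpn).trans ?_
          have h6 := hgw n hn
          have h7 : 0 ≤ gw n := by unfold gw; split_ifs <;> positivity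
          have h8 : ε * gw n ≤ 1 / 2 * 1 := mul_le_mul S.hε.2 h6 h7 (by norm_num)
          nlinarith
        · rw [abs_zero]; positivity
      calc |co Q j' B w c f i n| * (vv Q j' n) ^ 2 ≤ (|c n| + D / 4) * b' ^ 2 :=
            mul_le_mul h5 h4 (sq_nonneg _) (by positivity)
        _ = _ := by ring
    refine (Finset.sum_le_sum h1).trans ?_
    rw [Finset.sum_add_distrib, ← Finset.mul_sum, Finset.sum_const, nsmul_eq_mul]
    have h2 := hc i
    rw [← hH] at h2
    have h3 := S.Hle i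
    rw [← hH] at h3
    have h4 : ∑ n ∈ Ioc (B i) (B (i + 1)), |c n| ≤ D * ((Ioc (B i) (B (i + 1))).card : ℝ) :=
      h2.trans (mul_le_mul_of_nonneg_left h3 hD)
    have h5 := mul_le_mul_of_nonneg_left h4 (sq_nonneg b')
    have h6 : 0 ≤ D * b' ^ 2 * ((Ioc (B i) (B (i + 1))).card : ℝ) := by positivity
    nlinarith
  unfold mm
  rw [← hb', ← hκd]
  have e : D * (2 * ((Ioc (B i) (B (i + 1))).card : ℝ) * b' ^ 2 + 3 * κ * b' ^ (3 * Q + 3)) =
      D * (2 * (Ioc (B i) (B (i + 1))).card * b' ^ 2) + D * (κ * b' ^ (3 * Q + 3)) +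
        D * (κ * b' ^ (3 * Q + 3)) + D * (κ * b' ^ (3 * Q + 3)) := by ring
  rw [e]
  linarith

end Pool.Agent.W918.PX
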